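import Mathlib
import Pool.Agent.K1H15.MT.MFinal

/-!
# One tensor of degree four decides the motivic Mumford-Tate conjecture

Let `M i` be finitely many objects of the category of motives of André (or of motives for absolute
Hodge cycles) over a finitely generated field `k` of characteristic zero, `Γ` the Galois group of `k`,
`ρ i` its action on the `ℓ`-adic realization of `M i` and `V` the direct sum of these realizations,
supposed to be semisimple for the subgroups of finite index of `Γ` (a theorem of Faltings for motives
of abelian type; a conjecture in general).  Let `M` be the sum of the `M i` and `𝔤` the Lie algebra
(over `ℚ_ℓ`) of the motivic Galois group of `M`, with the properties `Motivic ρ 𝔤` (structure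
`IsMotivic` of the library: a reductive Lie algebra which respects the sum, consisting of all
endomorphisms which kill the tensors killed by `𝔤`; these tensors are Tate tensors).  A tensor is a
multilinear form in `m` variables from the sum of `V` and its dual space; it is motivated if it is
killed by `𝔤`, and a Tate tensor if it is fixed by a subgroup of finite index of `Γ`.

Theorem.  There is ONE tensor `Θ` of degree four, fixed by all elements of `Γ` (it depends only on the
Galois representation), such that for all `𝔤` as above:

1. if the Tate classes in `End(M)` are motivated, then `Θ` is motivated if and only if the derived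
   algebra of `𝔤` kills all Tate tensors, that is, the derived group of `G_σ(M)` is contained in
   `G_ℓ(M)°` (for motives for absolute Hodge cycles the Mumford-Tate group `G_σ(M)` is the identity
   component of the motivic Galois group, by Deligne);
2. if one element of `Γ` (a Frobenius element) is pure with weights `w i` and the conjecture is known
   for the centre up to the weight torus (for example if the centre of the motivic Galois group
   is the weight torus, i.e. the Hodge group is semisimple; or for motives of abelian type), then
   the conjecture Q1 for `M` (the Tate tensors are the tensors killed by `𝔤`, so `𝔤` is the Lie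
   algebra of `G_ℓ(M)`) is equivalent to: the Tate classes in `End(M)` and the tensor `Θ` are
   motivated.

So the conjecture for `M` in all degrees follows from its part in degree at most four (classes in
`M^{⊗a} ⊗ (M^∨)^{⊗b}`, `a + b ≤ 4`).

The tensor is the Casimir element of the Lie algebra `L` of the operators killing all Tate tensors.
The proof has three parts: (a) the commutant of `L` consists of the operators which commute with a
subgroup of finite index of `Γ` (`K1H15.MT.almost_of_comm`: the operators acting as `θ(β)` on the
generalized eigenspaces of an element of `Γ` belong to `L`, so the eigenvalues of its conjugation on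
the commutant are roots of unity of bounded order; a theorem of Burnside type; the trace form of the
algebra of the almost equivariant operators); (b) the trace form of `L` is nondegenerate; (c) the
weight operator belongs to `L` (`K1H15.MT.weight_mem`).  Nothing is used on the motive besides
`Motivic ρ 𝔤`, and no `p`-adic Hodge theory.  Tools of the library: the Casimir form of a Lie algebra
with nondegenerate trace form (`W516.KC2`), slopes, replicas and the Burnside-type theorem
(`K1H13.D4`, `K1H13.N`); the library's `W516.MT.Main2` has such a statement for abelian varieties under
the unproved hypothesis (a), which is proved here for all semisimple representations.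
-/

set_option autoImplicit false

namespace Pool.Agent.Results.MP_de8692_ag.OneTensorOfDegreeFour

open Pool.Agent.Y114.RM Pool.Agent.K1H15.MT

/-- One tensor of degree four, fixed by the Galois group, decides the motivic Mumford-Tate
conjecture: up to the centre, and fully if the centre is known up to the weight. -/
theorem result {Γ : Type} [Group Γ] {ι : Type} [Fintype ι] [DecidableEq ι] {n : ι → ℕ} {ℓ : ℕ}
    [Fact ℓ.Prime] (ρ : Reps Γ n ℓ) (hss : Semisimple ρ) :
    ∃ Θ : TensorOf n ℓ 4, IsFixed ρ Θ ∧
      ∀ 𝔤 : EndSpace n ℓ, Motivic ρ 𝔤 →
        (TateEndosMotivated ρ 𝔤 → (IsMotivated 𝔤 Θ ↔ DerivedKillsTate ρ 𝔤)) ∧
        ∀ (w : ι → ℤ) (γ : Γ) (q : ℕ), PureElement ρ w γ q → CentreKnown ρ 𝔤 w →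
          (TateTensorsOf ρ 𝔤 ↔ TateEndosMotivated ρ 𝔤 ∧ IsMotivated 𝔤 Θ) :=
  motivic_main ρ hss

end Pool.Agent.Results.MP_de8692_ag.OneTensorOfDegreeFour
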