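import Mathlib
import Pool.Agent.K1H15.BS.Thm

/-!
# The motivic Mumford-Tate conjecture from finitely many characteristic polynomials

Let `M i` be finitely many objects of the category of motives of André (or of motives for absolute
Hodge cycles) over a finitely generated field of characteristic zero, `Γ` its Galois group, `ρ i` the
action on the `ℓ`-adic realization of `M i`, `V` the direct sum of the realizations, and `𝔤` the Lie
algebra (over `ℚ_ℓ`) of the motivic Galois group of the direct sum `M` of the `M i`.  The property
`Motivic ρ 𝔤` (structure `IsMotivic`) states the properties of `𝔤` which are used: it is a Lie algebra,
it respects the direct sum, it is reductive (trace form nondegenerate, completely reducible on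
`V`), it consists of all endomorphisms which kill the tensors killed by `𝔤`, and these tensors are
Tate tensors (fixed by a subgroup of finite index of `Γ`).  Nothing is assumed on the type of the
group, on the weights and the Hodge numbers.

Suppose that one element `γ` of `Γ` (for instance a Frobenius element) has maximal rank: among its
eigenvalues there are `r` multiplicatively independent ones, and the rank of `𝔤` is at most `r`.

Theorem.
1. The conjecture for `M` (the realization is semisimple, and the Tate tensors in all degrees are the
   tensors killed by `𝔤`, that is `G_ℓ(M)° = G_σ(M)`) holds if and only if the realization is semisimple
   and the Tate classes in `End(M)` are motivated.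
2. It holds, without these assumptions, if one element of `Γ` acts on the `M i` with different
   irreducible characteristic polynomials over `ℚ_ℓ`, whose product is neat (it has no multiple roots,
   and no quotient of two different roots is a root of unity), and for every `i` some element of `Γ`
   has a neat characteristic polynomial on the realization of `M i`, with a root in `ℚ_ℓ`.

So for motives whose motivic Galois group acts on the `M i` by minuscule representations (the weights
are permuted transitively by the Weyl group) the conjecture in all degrees can be verified by the
characteristic polynomials of finitely many Frobenius elements, whatever the type of the group is: for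
example for the exterior powers of the standard representation of `GL(n)`, the standard
representations of symplectic and even orthogonal groups, all spin representations, and the
minuscule representations of `E₆` and `E₇`, and sums of such representations.  No information on the
inertia groups, on Hodge-Tate weights or on the other primes is used.  The starting file `MP_bbcdf5_ag.SpinMotives` has
such a statement, without the condition on the rank, for motives of spin type (`𝔤` a sum of
orthogonal Lie algebras in at least six variables, acting by spin representations).

The proof of 1.  Let `L` be the Lie algebra of the endomorphisms which kill the Tate tensors.  It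
contains the Lie algebra `t` of the torus attached to `γ`, which is its own centralizer in `𝔤`.  By
the condition on `End(M)` and the theorem on bicommutants, `L` generates over the complex numbers the
same associative algebra as `𝔤`.  Then `L = 𝔤` by `Pool.Agent.K1H15.BS.full`, a version of the theorem
of Borel and de Siebenthal for which a direct proof is given (see
`Results/MP_de8692_ag/TorusAndEndomorphisms.lean`).  For 2 the lemmas on strong irreducibility of the
library (`R918.Ell.of_goodPolys`) show that the realization is semisimple and that its endomorphisms
are the scalars on the summands.
-/

set_option autoImplicit false

namespace Pool.Agent.Results.MP_de8692_ag.RankAndPolynomials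

open Pool.Agent.Y114.RM Pool.Agent.K1H15.MT Pool.Agent.K1H15.BS

/-- **Elements of maximal rank.** If one element of `Γ` has as many multiplicatively independent
eigenvalues as the rank of the motivic Galois group, the motivic Mumford-Tate conjecture is
equivalent to the semisimplicity and the Tate conjecture for `End(M)`; it holds if the conditions
`GoodElements` on characteristic polynomials are satisfied. -/
theorem result {Γ : Type} [Group Γ] [TopologicalSpace Γ] [IsTopologicalGroup Γ] [CompactSpace Γ]
    {ι : Type} [Fintype ι] [DecidableEq ι] {n : ι → ℕ} {ℓ : ℕ} [Fact ℓ.Prime]
    (ρ : Reps Γ n ℓ) (hρ : Conts ρ) (𝔤 : EndSpace n ℓ) (h𝔤 : Motivic ρ 𝔤) (γ : Γ) (r : ℕ)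
    (hr : HasRank ρ γ r) (hrk : RankLE 𝔤 r) :
    (Semisimple ρ ∧ TateTensorsOf ρ 𝔤 ↔ Semisimple ρ ∧ TateEndosMotivated ρ 𝔤) ∧
      (GoodElements ρ → Semisimple ρ ∧ TateTensorsOf ρ 𝔤) :=
  rank_main ρ hρ 𝔤 h𝔤 γ r hr hrk

end Pool.Agent.Results.MP_de8692_ag.RankAndPolynomials
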