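import Pool.Agent.K1H14.SE.Asm2

/-!
# MP_de8692_ag: motives with spin monodromy, rank two modulo four

Let `M` be a motive (for absolute Hodge or motivated cycles) over a finitely generated field whose
`ℓ`-adic monodromy group is, up to homotheties, `Spin(T)`, acting on `V_ℓ(M) ⊗ ℂ = W Q = C⁺(T)` by
left multiplication, with `dim T` two modulo four and at least ten.  Let `A n` be the spans of the
motivic classes in `(Mᵛ)^{⊗ n}` (with Tate twists).  The even Clifford algebra has a centre of
dimension two, so that `M` may have classes like those of Weil; the *balanced* classes are those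
which are invariant under the central elements of norm one.

**Theorem.** (1) All balanced Tate classes on all `M^{⊗ n}` are motivic (the derived group of the
motivic Galois group is `Spin(T)`) if and only if one motivic class is not killed by one skew
element of `C⁺(T)` which is a linear combination of commutators.
(2) The identity components of the motivic Galois group and of the `ℓ`-adic monodromy group are
equal (that is, the motivic Mumford-Tate conjecture holds for `M`) if and only if there is
moreover one motivic class which is not killed by one skew central element.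
-/

set_option autoImplicit false

namespace Pool.Agent.Results.MP_de8692_ag.SpinTypeRankTwoModFour

open Pool.Agent.K1H14.KS Pool.Agent.K1H14.SD Pool.Agent.K1H14.SE CliffordAlgebra

universe u

/-- **Two classes decide the motivic Mumford-Tate conjecture for motives of spin type.** -/
theorem result {T : Type u} [AddCommGroup T] [Module ℂ T] (Q : QuadraticForm ℂ T)
    (hQ : ∀ t : T, (∀ s : T, QuadraticMap.polar Q s t = 0) → t = 0)
    (hd : Module.finrank ℂ T % 4 = 2) (h10 : 10 ≤ Module.finrank ℂ T)
    (A : ∀ n : ℕ, Submodule ℂ (WForm Q n)) (hA : IsMotivicW A) :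
    ((∃ (n : ℕ) (f : WForm Q n) (x : W Q), f ∈ A n ∧ IsTestE x ∧
        ¬ Kills (LinearMap.mulLeft ℂ x) f) ↔
      ∀ (n : ℕ) (f : WForm Q n), IsTate f → IsBal f → f ∈ A n) ∧
    (((∃ (n : ℕ) (f : WForm Q n) (x : W Q), f ∈ A n ∧ IsTestE x ∧
        ¬ Kills (LinearMap.mulLeft ℂ x) f) ∧
      ∃ (n : ℕ) (f : WForm Q n) (z : W Q), f ∈ A n ∧ IsCentralSkew z ∧
        ¬ Kills (LinearMap.mulLeft ℂ z) f) ↔
      ∀ x : W Q, (∀ (n : ℕ) (f : WForm Q n), f ∈ A n → Kills (LinearMap.mulLeft ℂ x) f) →
        ∃ Y : T →ₗ[ℂ] T, IsLiePair x Y) :=
  ⟨tateE_iff hQ hd h10 hA, tateE_lie hQ hd h10 hA⟩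

end Pool.Agent.Results.MP_de8692_ag.SpinTypeRankTwoModFour
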