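import Mathlib
import Pool.Agent.K1H15.BS.Thm

/-!
# The motivic Mumford-Tate conjecture from one Frobenius torus and the endomorphisms

Let `M i` be finitely many objects of the category of motives of André (or of motives for absolute
Hodge cycles) over a finitely generated field `k` of characteristic zero, pure of weight `w i`.  They
extend to a smooth model `U` of `k`; let `Γ` be the fundamental group of `U` (a quotient of the
absolute Galois group of `k`), `ρ i` the action of `Γ` on the `ℓ`-adic realization of `M i`, `V` the
direct sum of the realizations, and `𝔤` the Lie algebra (over `ℚ_ℓ`) of the motivic Galois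
group of the direct sum `M` of the `M i`.  The property `Motivic ρ 𝔤` (structure
`IsMotivic`) states the properties of `𝔤` which are used: it is a Lie algebra, it respects the
direct sum, it is reductive (trace form nondegenerate, completely reducible on `V`), it consists of all
endomorphisms which kill the tensors killed by `𝔤`, and these tensors are Tate tensors (fixed by a
subgroup of finite index of `Γ`).  Nothing is assumed on the type of the group, on the Hodge
numbers, or on the semisimplicity of the Galois action.

Let `s` be a closed point of `U`, with residue field the number field `F`; it induces a homomorphism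
(again `s`) from the absolute Galois group of `F` to `Γ`, and `ρs` is the restriction of `ρ`, that is
the realization of the fibre `M_s`.  (If `k = F` is a number field `Γ` is its Galois group and `s` the
identity.)  Suppose that

* there are three primes `p ≠ ℓ`, unramified in `F`, such that the fibre has good reduction at the
  places above `p`, with Frobenius polynomials in `ℚ[X]` which are pure of weight `w i`;
* at ONE place `v₀`, above one of these primes `p₀`, the Frobenius torus has maximal rank: there are
  `r` multiplicatively independent numbers among the Frobenius eigenvalues of the `M i`, and the rank of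
  `𝔤` is at most `r` (some element of `𝔤` has a centralizer of at most this dimension).
  If there are several places `v` above `p₀` (so `F ≠ ℚ`) they are supposed to be independent: if a
  product of numbers `x v` in the groups generated by the quotients `a / b` of the roots of the
  Frobenius polynomials at `v` is a root of unity, then all `x v` are roots of unity.

Theorem.  Then `V` is semisimple for the subgroups of finite index of the Galois group of `F`, and the
conjecture for `M_s` (the Tate tensors, in all degrees, are the tensors killed by `𝔤`, that is,
combinations of motivated classes or absolute Hodge classes) holds if and only if the Tate classes of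
degree two, in `End(M_s)`, are killed by `𝔤`.  If this is the case then `V` is semisimple for all
subgroups of finite index of `Γ`, and the Tate tensors of `Γ` are the tensors killed by `𝔤`, that is,
`G_ℓ(M)° = G_σ(M)` (for motives for absolute Hodge cycles the Mumford-Tate group `G_σ(M)` is the
identity component of the motivic Galois group, by Deligne).

For example, if `V` is absolutely irreducible for all subgroups of finite index of the Galois group
of `F`, then `G_ℓ(M)° = G_σ(M)` as soon as one Frobenius torus has the rank of `G_σ(M)`, whatever the type
of the group is.

In comparison with `MP_de8692_ag.MaximalTorusRegularUnipotents` there are no conditions on unipotent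
elements: these are replaced by the conjecture for `End(M)` alone, which is necessary.  The semisimplicity
for number fields is `MP_8f1292_ag.MaximalFrobeniusTorus`.  For abelian varieties the criterion is
known (Faltings, Zarhin, Larsen and Pink).

The proof.  Let `L` be the Lie algebra of the endomorphisms which kill the Tate tensors of `ρs`.  It
contains the Lie algebra `t` of the Frobenius torus, which is its own centralizer in `𝔤`.  By the
condition on `End(M_s)` and the theorem on bicommutants, `L` generates over the complex numbers the
same associative algebra as `𝔤`.  It remains to show the following algebraic statement, a version of the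
theorem of Borel and de Siebenthal (`Pool.Agent.K1H15.BS.full`): a subalgebra `L` of `𝔤` which contains
a torus `t` which is its own centralizer in `𝔤`, and generates an associative algebra which contains
`𝔤`, is equal to `𝔤`.  The proof does not use root systems: the weights of `𝔤` are sums of weights of `L`
(the trace form pairs the weight vectors of opposite weights only); if the weight of `x` is the
sum of the weights of `x_1, …, x_k` in `L`, then for the opposite root vector `f` one of the brackets
`[f, x_i]` is not zero, since not all the `x_i` can be lowest weight vectors; if `x'` has the opposite
weight of `[f, x_i]` and is not orthogonal to it then `x'` is in `L` by induction on `k`, and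
`tr([x_i, x'] f) = tr([f, x_i] x') ≠ 0`, so that `x` is a multiple of `[x_i, x']`.
-/

set_option autoImplicit false

namespace Pool.Agent.Results.MP_de8692_ag.TorusAndEndomorphisms

open NumberField IsDedekindDomain Polynomial Module Pool.Agent.Y114.TF Pool.Agent.Y114.GF
  Pool.Agent.Y114.MU Pool.Agent.Y114.RM Pool.Agent.K1H15.MT

/-- **One Frobenius torus of maximal rank and the Tate classes in `End(M)` decide the motivic
Mumford-Tate conjecture.** -/
theorem result {Γ : Type} [Group Γ] {ι : Type} [Fintype ι] [DecidableEq ι] {n : ι → ℕ} {ℓ : ℕ}
    [Fact ℓ.Prime]
    -- the `ℓ`-adic realizations of the `M i`, and the Lie algebra of the motivic Galois group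
    (ρ : Reps Γ n ℓ) (𝔤 : EndSpace n ℓ) (h𝔤 : Motivic ρ 𝔤)
    -- a point with values in the number field `F`; the realizations at this point
    {F : Type} [Field F] [NumberField F] (s : Gal(AlgebraicClosure F/F) →* Γ)
    (ρs : Reps Gal(AlgebraicClosure F/F) n ℓ) (hs : ρs = restrictTo ρ s) (hρs : Conts ρs)
    (w : ι → ℤ)
    -- three primes of good reduction
    (P : HeightOneSpectrum (𝓞 F) → ι → ℚ[X]) (T : Set ℕ) (hT3 : 3 ≤ T.encard)
    (hT : ∀ p ∈ T, p.Prime ∧ p ≠ ℓ ∧ UnramifiedIn F p)
    (hP : ∀ p ∈ T, ∀ v, Above v p → ∀ i, GoodReduction ρs i (w i) v (P v i))
    -- one Frobenius torus of maximal rank
    (p₀ : ℕ) (hp₀ : p₀ ∈ T) (hind : IndependentPlaces P p₀)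
    (v₀ : HeightOneSpectrum (𝓞 F)) (hv₀ : Above v₀ p₀) (r : ℕ)
    (hr : IndepRoots r (Set.range (P v₀))) (hrank : RankLE 𝔤 r) :
    Semisimple ρs ∧ (TateTensorsOf ρs 𝔤 ↔ TateEndosMotivated ρs 𝔤) ∧
      (TateEndosMotivated ρs 𝔤 → Semisimple ρ ∧ TateTensorsOf ρ 𝔤) :=
  Pool.Agent.K1H15.BS.frob_main ρ 𝔤 h𝔤 s ρs hs hρs w P T hT3 hT hP p₀ hp₀ hind v₀ hv₀ r hr hrank

end Pool.Agent.Results.MP_de8692_ag.TorusAndEndomorphisms
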